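import Pool.Agent.InjB.Uni

/-!
# MP_e7fc82_pr: Gaussian sums of symmetric tensors of every order `r`, for every `p ≥ 2`

For every `r ≥ 1` there is a constant `C`, depending only on `r`, such that for all `p ≥ 2`, all dimensions `d ≥ 1` and
all symmetric tensors `T 1, ..., T n` of order `r`
`E ‖∑ g_i T_i‖ ≤ C (1 + log d)^{1/2} d^{1/2 - 1/P} (∑ ‖T_i‖²)^{1/2}`, `P = max(p, 2⌈r/2⌉)`.
Here `2 * ((r + 1) / 2)` (division of natural numbers) is `2⌈r/2⌉`. For `p ≥ 2⌈r/2⌉` this is the inequality (∗) of the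
problem for the pair `(r, p)`.
-/

open Pool.Agent.InjP MeasureTheory

theorem Pool.Agent.Results.MP_e7fc82_pr.AllDegrees.result :
    ∀ r : ℕ, 1 ≤ r → ∃ C : ℝ, 0 ≤ C ∧ ∀ p : ℝ, 2 ≤ p → ∀ d n : ℕ, 1 ≤ d →
      ∀ T : Fin n → (Fin r → Fin d) → ℝ, (∀ i, IsSymT (T i)) →
        Integrable (fun g : Fin n → ℝ => injNorm p (∑ i, g i • T i)) (gauss n) ∧
        ∫ g : Fin n → ℝ, injNorm p (∑ i, g i • T i) ∂gauss n ≤
          C * Real.sqrt (1 + Real.log d) *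
            (d : ℝ) ^ (1 / 2 - 1 / max p (2 * ((r + 1) / 2) : ℕ)) *
            Real.sqrt (∑ i, injNorm p (T i) ^ 2) :=
  fun _ hr => Pool.Agent.InjB.uni_all hr
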