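import Pool.Agent.InjC.AllP

/-!
# MP_e7fc82_pr: Gaussian sums of symmetric tensors of order three near the Euclidean case

For `r = 3` and every `p ≥ 2`
`E ‖∑ g_i T_i‖ ≤ 100000 (1 + log d)^{1/2} d^{5/3 - 3/p} (∑ ‖T_i‖²)^{1/2}`;
for `p = 2` the power of `d` is `d^{1/6}`.
-/

open Pool.Agent.InjP MeasureTheory

theorem Pool.Agent.Results.MP_e7fc82_pr.CubeEuclid.result :
    ∀ p : ℝ, 2 ≤ p → ∀ d n : ℕ, 1 ≤ d → ∀ T : Fin n → (Fin 3 → Fin d) → ℝ, (∀ i, IsSymT (T i)) →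
      Integrable (fun g : Fin n → ℝ => injNorm p (∑ i, g i • T i)) (gauss n) ∧
      ∫ g : Fin n → ℝ, injNorm p (∑ i, g i • T i) ∂gauss n ≤
        100000 * Real.sqrt (1 + Real.log d) * (d : ℝ) ^ (5 / 3 - 3 / p) *
          Real.sqrt (∑ i, injNorm p (T i) ^ 2) :=
  fun _ hp _ _ hd _ hT => Pool.Agent.InjC.cub_all hp hd hT
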