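import Pool.Agent.RedF.Fin

/-!
# MP_e7fc82_pr: Gaussian sums of symmetric tensors whose forms are products of forms of low degree

`pairing T x` is `⟨T, x^{⊗ r}⟩`, `injNorm p T` is `‖T‖_{I_p}`, `gauss n` is the law of `n` i.i.d. standard
Gaussian variables, `ProdForm m r f` says that `f` is a product of forms of degrees between `1` and `m`, of total
degree `r`, and `ballNorm p f` is the supremum of `|f|` on the unit ball of `ℓ_p^d`.  `2 * ((m + 1) / 2)` (division
of natural numbers) is `2⌈m/2⌉`.  The three parts: products, sums of products, and forms which have degree at most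
`m` along a subspace of codimension at most `K`.
-/

open Pool.Agent.InjP Pool.Agent.RedF MeasureTheory

theorem Pool.Agent.Results.MP_e7fc82_pr.ReducibleForms.result :
    ∀ r : ℕ, 1 ≤ r → ∃ C : ℝ, 0 ≤ C ∧ ∀ (m : ℕ) (p : ℝ), 1 ≤ m →
      ((2 * ((m + 1) / 2) : ℕ) : ℝ) ≤ p → ∀ d n : ℕ, 1 ≤ d →
      ∀ T : Fin n → (Fin r → Fin d) → ℝ, (∀ i, IsSymT (T i)) →
        Integrable (fun g : Fin n → ℝ => injNorm p (∑ i, g i • T i)) (gauss n) ∧
        ((∀ i, ProdForm m r (pairing (T i))) →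
          ∫ g : Fin n → ℝ, injNorm p (∑ i, g i • T i) ∂gauss n ≤
            C * Real.sqrt (1 + Real.log d) * (d : ℝ) ^ (1 / 2 - 1 / p) *
              Real.sqrt (∑ i, injNorm p (T i) ^ 2)) ∧
        (∀ N : Fin n → ℝ, (∀ i, ∃ (k : ℕ) (Q : Fin k → (Fin d → ℝ) → ℝ),
            (∀ j, ProdForm m r (Q j)) ∧ (∀ x, pairing (T i) x = ∑ j, Q j x) ∧
              ∑ j, ballNorm p (Q j) ≤ N i) →
          ∫ g : Fin n → ℝ, injNorm p (∑ i, g i • T i) ∂gauss n ≤
            C * Real.sqrt (1 + Real.log d) * (d : ℝ) ^ (1 / 2 - 1 / p) *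
              Real.sqrt (∑ i, N i ^ 2)) ∧
        (∀ K : ℕ, (∀ i, ∃ e : Fin K → Fin d → ℝ, ∀ x z : Fin d → ℝ,
            (∀ j, ∑ l, e j l * z l = 0) → ∃ P : Polynomial ℝ, P.natDegree ≤ m ∧
              ∀ t : ℝ, pairing (T i) (x + t • z) = P.eval t) →
          ∫ g : Fin n → ℝ, injNorm p (∑ i, g i • T i) ∂gauss n ≤
            C * (K + 1) ^ (2 * r) * Real.sqrt (1 + Real.log d) * (d : ℝ) ^ (1 / 2 - 1 / p) *
              Real.sqrt (∑ i, injNorm p (T i) ^ 2)) := by
  intro r hr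
  obtain ⟨C, hC0, hC⟩ := main r
  have hrr : (1 : ℝ) ≤ (r : ℝ) ^ r := one_le_pow₀ (by exact_mod_cast hr)
  refine ⟨C * (r : ℝ) ^ r, by positivity, fun m p hm hmp d n hd T hT => ?_⟩
  have hp : 2 ≤ p := by
    refine le_trans ?_ hmp
    exact_mod_cast (by omega : 2 ≤ 2 * ((m + 1) / 2))
  have hp0 : 0 < p := by linarith
  have hD := DD_nonneg p d
  have e0 := EA_injNorm hp0 T
  have hC1 : C ≤ C * (r : ℝ) ^ r := le_mul_of_one_le_right hC0 hrr
  refine ⟨integrable_injNorm hp0 (by omega) T, fun h => ?_, fun N h => ?_, fun K h => ?_⟩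
  · rw [← e0]
    have h1 := hC m p hp hmp d n hd (fun i => pairing (T i)) (fun i => Or.inr (h i))
    refine h1.trans ?_
    rw [mul_assoc (C * (r : ℝ) ^ r)]
    exact mul_le_mul_of_nonneg_right (mul_le_mul_of_nonneg_right hC1 hD) (Real.sqrt_nonneg _)
  · rw [← e0]
    refine (sum_bound hC0 hC m p hp hmp hd (fun i => pairing (T i)) N h).trans ?_
    rw [mul_assoc (C * (r : ℝ) ^ r)]
    exact mul_le_mul_of_nonneg_right (mul_le_mul_of_nonneg_right hC1 hD) (Real.sqrt_nonneg _)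
  · rw [← e0]
    refine (few_bound hr hC0 hC m hm p hp hmp hd K T hT h).trans (le_of_eq ?_)
    unfold DD
    ring
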